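import Pool.Agent.H44.FE4

open MeasureTheory Pool.Agent.H44.FE

namespace Pool.Agent.Results.MP_cc1c4a_pr.Exists

theorem result (d : ℕ) (hd : 2 ≤ d) : ∃ μ : Measure (Cfg d), IsProbabilityMeasure μ ∧
    Invariant μ ∧ FiniteEnergy μ ∧ (∀ᵐ ω ∂μ, Perc ω) ∧ pc μ = 1 :=
  main hd

end Pool.Agent.Results.MP_cc1c4a_pr.Exists
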